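import Mathlib
import Pool.Agent.N70.EQ.Stm

/-!
PW of the project EQ (helper70): a `d`-th power in the field generated by algebraically independent
elements which is a polynomial is the `d`-th power of a polynomial.
-/

set_option autoImplicit false

namespace Pool.Agent.N953.EQ

theorem pw {k N I : Type} [Field k] [Field N] [Algebra k N] (η : I → N)
    (hη : AlgebraicIndependent k η) (t : N) (d : ℕ) (D : MvPolynomial I k) (hd : 0 < d)
    (ht : t ∈ IntermediateField.adjoin k (Set.range η)) (htD : t ^ d = MvPolynomial.aeval η D) :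
    ∃ t' : MvPolynomial I k, t' ^ d = D := by
  classical
  rw [IntermediateField.mem_adjoin_range_iff] at ht
  obtain ⟨p, q, rfl⟩ := ht
  have hinj : Function.Injective (MvPolynomial.aeval η : MvPolynomial I k →ₐ[k] N) := hη
  by_cases hq : q = 0
  · subst hq
    simp only [map_zero, div_zero, zero_pow hd.ne'] at htD
    refine ⟨0, ?_⟩
    rw [zero_pow hd.ne']
    exact hinj (by rw [map_zero]; exact htD)
  have hq' : (MvPolynomial.aeval η q : N) ≠ 0 := fun h => hq (hinj (by rw [h, map_zero]))
  have hpq : p ^ d = q ^ d * D := by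
    apply hinj
    rw [map_mul, map_pow, map_pow, ← htD, div_pow, mul_div_cancel₀]
    exact pow_ne_zero _ hq'
  -- q ^ d divides p ^ d, so q divides p
  have hdvd : q ∣ p := by
    have h1 : q ^ d ∣ p ^ d := ⟨D, hpq⟩
    exact (IsIntegrallyClosed.pow_dvd_pow_iff hd.ne').1 h1
  obtain ⟨r, rfl⟩ := hdvd
  refine ⟨r, ?_⟩
  rw [mul_pow] at hpq
  exact mul_left_cancel₀ (pow_ne_zero d hq) hpq

theorem t_pw : Pool.Agent.N70.EQ.St_pw := by
  intro k N I _ _ _ _ η hη t d D hd ht htD
  exact pw η hη t d D hd ht htD

end Pool.Agent.N953.EQ
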